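import Pool.Agent.Helper22.G4.Real

/-! # G4-R6: basic properties of `InCone` -/

namespace Pool.Agent.Helper76.G4

open Submodule Pool.Agent.Helper22.G4

/-- G4-R6 (basic properties of `InCone`). -/
theorem InCone.zero {V : Type*} (c : V → E5) (A : Finset V) : InCone c A 0 :=
  ⟨fun _ => 0, fun _ _ => le_rfl, by simp⟩

theorem InCone.add {V : Type*} {c : V → E5} {A : Finset V} {x y : E5} (hx : InCone c A x)
    (hy : InCone c A y) : InCone c A (x + y) := by
  obtain ⟨a, ha, rfl⟩ := hx
  obtain ⟨b, hb, rfl⟩ := hy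
  refine ⟨fun v => a v + b v, fun v hv => add_nonneg (ha v hv) (hb v hv), ?_⟩
  rw [← Finset.sum_add_distrib]
  exact Finset.sum_congr rfl fun v _ => (add_smul _ _ _).symm

theorem InCone.smul {V : Type*} {c : V → E5} {A : Finset V} {x : E5} {r : ℝ} (hr : 0 ≤ r)
    (hx : InCone c A x) : InCone c A (r • x) := by
  obtain ⟨a, ha, rfl⟩ := hx
  refine ⟨fun v => r * a v, fun v hv => mul_nonneg hr (ha v hv), ?_⟩
  rw [Finset.smul_sum]
  exact Finset.sum_congr rfl fun v _ => smul_smul _ _ _

theorem InCone.of_mem {V : Type*} [DecidableEq V] {c : V → E5} {A : Finset V} {v : V}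
    (hv : v ∈ A) : InCone c A (c v) := by
  refine ⟨fun w => if w = v then 1 else 0, fun w _ => ?_, ?_⟩
  · dsimp only
    split_ifs <;> norm_num
  · rw [Finset.sum_eq_single v]
    · simp
    · intro w _ hw
      simp [hw]
    · intro h
      exact absurd hv h

end Pool.Agent.Helper76.G4
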