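import Pool.Agent.Helper22.G4.Base
import Pool.Agent.Helper22.G4.GenFam

/-! # G4-S1 -/

namespace Pool.Agent.Helper76.G4

open Submodule Pool.Agent.Helper22.G4

theorem edge_mem (I : NF) : (Vx.b1, Vx.b2) ∈ cycPairs I.page0.1 := by
  have h : ∀ (l : List Vx), (Vx.b1, Vx.b2) ∈ (l ++ [Vx.b1, Vx.b2, Vx.u 0 0 1]).zip
      ((l ++ [Vx.b1, Vx.b2, Vx.u 0 0 1]).tail ++ (l ++ [Vx.b1, Vx.b2, Vx.u 0 0 1]).take 1) := by
    intro l
    have h1 : ∀ (l : List Vx) (m : List Vx), (Vx.b1, Vx.b2) ∈ (l ++ [Vx.b1, Vx.b2, Vx.u 0 0 1]).zip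
      ((l ++ [Vx.b1, Vx.b2, Vx.u 0 0 1]).tail ++ m) := by
      intro l
      induction l with
      | nil => intro m; simp
      | cons a l ih =>
        intro m
        cases l with
        | nil => simp
        | cons b l =>
          have := ih m
          simp only [List.cons_append, List.tail_cons, List.zip_cons_cons, List.mem_cons] at this ⊢
          right
          exact this
    exact h1 l _
  exact h _

/-- G4-S1 (the functional of the edge `b1 b2`). -/
theorem snd_tau {I : NF} (_hI : I.OK) {c : Vx → E5} (hM : I.data.Model c) :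
    ∃ τ : E5 →ₗ[ℝ] ℝ, τ (c Vx.b1) = 0 ∧ τ (c Vx.b2) = 0 ∧
      ∀ v ∈ I.data.verts, v ≠ Vx.b1 → v ≠ Vx.b2 → 0 < τ (c v) := by
  have hp : I.page0 ∈ I.data.flats := List.mem_cons_self
  obtain ⟨hsub, τ, h0, h1⟩ := hM.edge I.page0 hp _ (edge_mem I)
  have hb1 : Vx.b1 ∈ I.data.verts.toFinset := hsub (by simp)
  have hb2 : Vx.b2 ∈ I.data.verts.toFinset := hsub (by simp)
  refine ⟨τ, (h1 _ hb1).2 (by simp), (h1 _ hb2).2 (by simp), fun v hv h1' h2' => ?_⟩
  have hv' : v ∈ I.data.verts.toFinset := List.mem_toFinset.2 hv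
  refine lt_of_le_of_ne (h0 v hv') fun h => ?_
  have := (h1 v hv').1 h.symm
  simp only [Set.mem_insert_iff, Set.mem_singleton_iff] at this
  rcases this with h | h
  · exact h1' h
  · exact h2' h

/-- G4-S1 (two different vertices of a configuration are linearly independent). -/
theorem conf_pair {V : Type*} {c : V → E5} {A : Finset V} (hc : Conf c A) {u v : V} (hu : u ∈ A)
    (hv : v ∈ A) (huv : u ≠ v) : LinearIndependent ℝ ![c u, c v] := by
  obtain ⟨-, f, _, f1⟩ := hc.vert u hu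
  obtain ⟨-, g, _, g1⟩ := hc.vert v hv
  have fu : f (c u) = 0 := (f1 u hu).2 rfl
  have fv : f (c v) ≠ 0 := fun h => huv ((f1 v hv).1 h).symm
  have gv : g (c v) = 0 := (g1 v hv).2 rfl
  have gu : g (c u) ≠ 0 := fun h => huv ((g1 u hu).1 h)
  rw [LinearIndependent.pair_iff]
  intro a b hab
  have h1 := congrArg f hab
  have h2 := congrArg g hab
  simp only [map_add, map_smul, smul_eq_mul, fu, gv, mul_zero, zero_add, add_zero, map_zero] at h1 h2
  exact ⟨(mul_eq_zero.1 h2).resolve_right gu, (mul_eq_zero.1 h1).resolve_right fv⟩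

/-- G4-S1 (the vertices of a page, normalised by `τ`, differ by elements of the common line). -/
theorem snd_page {I : NF} (_hI : I.OK) {c : Vx → E5} (hM : I.data.Model c) {τ : E5 →ₗ[ℝ] ℝ}
    (h1 : τ (c Vx.b1) = 0) (h2 : τ (c Vx.b2) = 0)
    (hp : ∀ v ∈ I.data.verts, v ≠ Vx.b1 → v ≠ Vx.b2 → 0 < τ (c v))
    {R : Flat Vx Fc} (hR : R ∈ I.data.flats) (hb1 : Vx.b1 ∈ R.1) (hb2 : Vx.b2 ∈ R.1) {u v : Vx}
    (hu : u ∈ R.1) (hv : v ∈ R.1) (hu1 : u ≠ Vx.b1) (hu2 : u ≠ Vx.b2) (hv1 : v ≠ Vx.b1)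
    (hv2 : v ≠ Vx.b2) :
    (τ (c u))⁻¹ • c u - (τ (c v))⁻¹ • c v ∈ span ℝ ({c Vx.b1, c Vx.b2} : Set E5) := by
  have hsub := (hM.flat R hR).1
  have hu' : u ∈ I.data.verts := List.mem_toFinset.1 (hsub hu)
  have hv' : v ∈ I.data.verts := List.mem_toFinset.1 (hsub hv)
  have hτu := hp u hu' hu1 hu2
  have hτv := hp v hv' hv1 hv2
  set S := span ℝ (c '' {a | a ∈ R.1}) with hS
  set K := S ⊓ LinearMap.ker τ with hK
  have hrank : Module.finrank ℝ S = 3 := hM.rank R hR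
  have mem : ∀ w ∈ R.1, c w ∈ S := fun w hw => subset_span ⟨w, hw, rfl⟩
  have hlt : K < S := by
    refine lt_of_le_of_ne inf_le_left fun h => ?_
    have : c u ∈ K := h ▸ mem u hu
    have := (LinearMap.mem_ker.1 this.2)
    exact hτu.ne' this
  have hfin := Submodule.finrank_lt_finrank_of_lt hlt
  have hb : Module.finrank ℝ (span ℝ ({c Vx.b1, c Vx.b2} : Set E5)) = 2 := by
    have hne : Vx.b1 ≠ Vx.b2 := by decide
    have hli := conf_pair hM.conf (hsub hb1) (hsub hb2) hne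
    have := finrank_span_eq_card hli
    rw [Matrix.range_cons_cons_empty] at this
    simpa using this
  have hle : span ℝ ({c Vx.b1, c Vx.b2} : Set E5) ≤ K := by
    rw [span_le]
    intro z hz
    rcases hz with rfl | hz
    · exact ⟨mem _ hb1, LinearMap.mem_ker.2 h1⟩
    · rw [Set.mem_singleton_iff] at hz
      subst hz
      exact ⟨mem _ hb2, LinearMap.mem_ker.2 h2⟩
  have heq : span ℝ ({c Vx.b1, c Vx.b2} : Set E5) = K :=
    Submodule.eq_of_le_of_finrank_le hle (by omega)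
  rw [heq]
  refine ⟨S.sub_mem (S.smul_mem _ (mem u hu)) (S.smul_mem _ (mem v hv)), ?_⟩
  refine LinearMap.mem_ker.2 ?_
  rw [map_sub, map_smul, map_smul, smul_eq_mul, smul_eq_mul,
    inv_mul_cancel₀ hτu.ne', inv_mul_cancel₀ hτv.ne', sub_self]

end Pool.Agent.Helper76.G4
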