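import Pool.Agent.Helper42.G4.T2

/-! # G4-T3: vertices and facets of the base polytope are computable in polynomial time -/

namespace Pool.Agent.Helper76.G4

open Pool.Agent.Helper22.G4 Pool.Agent.Helper91.PolyTime

variable {α β : Type*} [PEnc α] [PEnc β]

/-! ### The parameters of the system -/

theorem ptf_B {I : α → NF} (hI : PTF I) : PTF fun a => (I a).B := PTF.fst hI
theorem ptf_S {I : α → NF} (hI : PTF I) : PTF fun a => (I a).S := PTF.fst (PTF.snd hI)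
theorem ptf_ops {I : α → NF} (hI : PTF I) : PTF fun a => (I a).ops := PTF.snd (PTF.snd hI)
theorem ptf_K {I : α → NF} (hI : PTF I) : PTF fun a => (I a).K :=
  PTF.add (PTF.add (ptf_B hI) (PTF.const 3)) (ptf_S hI)
theorem ptf_N {I : α → NF} (hI : PTF I) : PTF fun a => (I a).N :=
  PTF.add (PTF.mul (PTF.const 2) (ptf_K hI)) (PTF.const 4)
theorem ptf_M {I : α → NF} (hI : PTF I) : PTF fun a => (I a).M :=
  PTF.mul (PTF.const 4) (PTF.length (ptf_ops hI))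

theorem ptf_pos {f : α → ℕ} (hf : PTF f) : PTF fun a => pos (f a) :=
  PTF.add (PTF.mul (PTF.const 2) hf) (PTF.const 4)

/-! ### The operations -/

theorem ptf_opd {I : α → NF} {n : α → ℕ} {o : α → Op} (hI : PTF I) (hn : PTF n) (ho : PTF o) :
    PTF fun a => (I a).opd (n a) (o a) := by
  have h1 : PTF fun a => decide ((o a).1 = true) := PTF.eq ho.fst (PTF.const true)
  unfold NF.opd
  exact PTF.pair hn (PTF.pair
    (PTF.pair (ptf_pos ho.snd.fst) (PTF.pair (ptf_pos ho.snd.snd.fst) (ptf_pos ho.snd.snd.snd)))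
    (PTF.pair (ptf_pos (ptf_B hI)) (PTF.pair
      (ptf_pos (PTF.ite h1 (PTF.add (ptf_B hI) (PTF.const 2)) (PTF.add (ptf_B hI) (PTF.const 1))))
      (ptf_pos (PTF.ite h1 (PTF.add (ptf_B hI) (PTF.const 1)) (ptf_B hI))))))

theorem ptf_opds {I : α → NF} (hI : PTF I) : PTF fun a => (I a).opds := by
  unfold NF.opds
  exact PTF.map (f := fun (a : α) (o : Op × ℕ) => (I a).opd o.2 o.1)
    (Pool.Agent.Helper42.G4.ptf_zipIdx (ptf_ops hI))
    (ptf_opd (hI.comp PTF.id.fst) PTF.id.snd.snd PTF.id.snd.fst)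

section opd

variable {d : α → OpD}

theorem ptf_n (hd : PTF d) : PTF fun a => (d a).n := PTF.fst hd
theorem ptf_x (hd : PTF d) : PTF fun a => (d a).x := PTF.fst (PTF.fst (PTF.snd hd))
theorem ptf_y (hd : PTF d) : PTF fun a => (d a).y :=
  PTF.fst (PTF.snd (PTF.fst (PTF.snd hd)))
theorem ptf_z (hd : PTF d) : PTF fun a => (d a).z :=
  PTF.snd (PTF.snd (PTF.fst (PTF.snd hd)))
theorem ptf_i (hd : PTF d) : PTF fun a => (d a).i := PTF.fst (PTF.snd (PTF.snd hd))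
theorem ptf_v (hd : PTF d) : PTF fun a => (d a).v :=
  PTF.fst (PTF.snd (PTF.snd (PTF.snd hd)))
theorem ptf_w (hd : PTF d) : PTF fun a => (d a).w :=
  PTF.snd (PTF.snd (PTF.snd (PTF.snd hd)))

theorem ptf_pa (hd : PTF d) : PTF fun a => (d a).pa :=
  PTF.add (PTF.mul (PTF.const 4) (ptf_n hd)) (PTF.const 1)
theorem ptf_pb (hd : PTF d) : PTF fun a => (d a).pb :=
  PTF.add (PTF.mul (PTF.const 4) (ptf_n hd)) (PTF.const 2)
theorem ptf_pc (hd : PTF d) : PTF fun a => (d a).pc :=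
  PTF.add (PTF.mul (PTF.const 4) (ptf_n hd)) (PTF.const 3)
theorem ptf_pd (hd : PTF d) : PTF fun a => (d a).pd :=
  PTF.add (PTF.mul (PTF.const 4) (ptf_n hd)) (PTF.const 4)
theorem ptf_g0 (hd : PTF d) : PTF fun a => (d a).g0 := PTF.mul (PTF.const 3) (ptf_n hd)
theorem ptf_g1 (hd : PTF d) : PTF fun a => (d a).g1 :=
  PTF.add (PTF.mul (PTF.const 3) (ptf_n hd)) (PTF.const 1)
theorem ptf_g2 (hd : PTF d) : PTF fun a => (d a).g2 :=
  PTF.add (PTF.mul (PTF.const 3) (ptf_n hd)) (PTF.const 2)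

theorem ptf_nxt {M : α → ℕ} (hM : PTF M) (hd : PTF d) : PTF fun a => (d a).nxt (M a) := by
  unfold OpD.nxt
  exact PTF.ite (PTF.eq (PTF.add (PTF.mul (PTF.const 4) (ptf_n hd)) (PTF.const 4)) hM)
    (PTF.const 0) (PTF.add (PTF.mul (PTF.const 4) (ptf_n hd)) (PTF.const 5))

end opd

/-! ### Vertices -/

theorem ptf_u {a i j : α → ℕ} (ha : PTF a) (hi : PTF i) (hj : PTF j) :
    PTF fun x => Vx.u (a x) (i x) (j x) :=
  PTF.pair (PTF.const 0) (PTF.pair ha (PTF.pair hi hj))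
theorem ptf_p {g : α → ℕ} (hg : PTF g) : PTF fun x => Vx.p (g x) :=
  PTF.pair (PTF.const 3) (PTF.pair hg (PTF.const (0, 0)))
theorem ptf_q {g : α → ℕ} (hg : PTF g) : PTF fun x => Vx.q (g x) :=
  PTF.pair (PTF.const 4) (PTF.pair hg (PTF.const (0, 0)))

theorem ptf_opVerts {N : α → ℕ} {d : α → OpD} (hN : PTF N) (hd : PTF d) :
    PTF fun a => (d a).verts (N a) := by
  have h0 : PTF fun _ : α => (0 : ℕ) := PTF.const 0
  have ha := ptf_pa hd
  have hb := ptf_pb hd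
  have hc := ptf_pc hd
  have he := ptf_pd hd
  have hx := ptf_x hd
  have hy := ptf_y hd
  have hz := ptf_z hd
  have hi := ptf_i hd
  have hv := ptf_v hd
  have hw := ptf_w hd
  unfold OpD.verts
  exact PTF.cons (ptf_u ha h0 hz) (PTF.cons (ptf_u ha hz hx) (PTF.cons (ptf_u ha hx hN)
    (PTF.cons (ptf_u hb h0 hy) (PTF.cons (ptf_u hb hy hi) (PTF.cons (ptf_u hb hi hx)
    (PTF.cons (ptf_u hb hx hN) (PTF.cons (ptf_u hc h0 hy) (PTF.cons (ptf_u hc hy hv)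
    (PTF.cons (ptf_u hc hv hN) (PTF.cons (ptf_u he h0 hw) (PTF.cons (ptf_u he hw hN)
    (PTF.cons (ptf_p (ptf_g0 hd)) (PTF.cons (ptf_q (ptf_g0 hd)) (PTF.cons (ptf_p (ptf_g1 hd))
    (PTF.cons (ptf_q (ptf_g1 hd)) (PTF.cons (ptf_p (ptf_g2 hd)) (PTF.cons (ptf_q (ptf_g2 hd))
    (PTF.const []))))))))))))))))))

/-- G4-T3 -/
theorem ptf_verts : PTF fun I : NF => I.data.verts := by
  have h1 : PTF fun I : NF => (List.range I.N).map (fun i => Vx.u 0 i (i + 1)) :=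
    PTF.map (f := fun (_ : NF) (i : ℕ) => Vx.u 0 i (i + 1)) (PTF.range (ptf_N PTF.id))
      (ptf_u (PTF.const 0) PTF.id.snd (PTF.succ PTF.id.snd))
  have h2 : PTF fun I : NF => I.opds.flatMap (OpD.verts I.N) :=
    PTF.flatMap (f := fun (I : NF) (d : OpD) => OpD.verts I.N d) (ptf_opds PTF.id)
      (ptf_opVerts ((ptf_N PTF.id).comp PTF.id.fst) PTF.id.snd)
  exact PTF.cons (PTF.const Vx.b1) (PTF.cons (PTF.const Vx.b2) (PTF.append h1 h2))

/-! ### Facets -/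

theorem ptf_F {N s a : α → ℕ} (hN : PTF N) (hs : PTF s) (ha : PTF a) :
    PTF fun x => Fc.F (N x) (s x) (a x) :=
  PTF.pair (PTF.pair (PTF.const 0) (PTF.pair ha (PTF.succ ha))) (PTF.pair (PTF.pair hs hs)
    (PTF.pair (PTF.pair (PTF.isZero hs) (PTF.eq hs hN)) (PTF.const (0, 0))))

theorem ptf_Q {N a b : α → ℕ} (hN : PTF N) (ha : PTF a) (hb : PTF b) :
    PTF fun x => Fc.Q (N x) (a x) (b x) :=
  PTF.pair (PTF.pair ha (PTF.pair hb hb)) (PTF.pair (PTF.pair (PTF.const 0) hN)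
    (PTF.const ((true, true), (0, 0))))

theorem ptf_GX {N a g : α → ℕ} (hN : PTF N) (ha : PTF a) (hg : PTF g) :
    PTF fun x => Fc.GX (N x) (a x) (g x) :=
  PTF.pair (PTF.pair ha (PTF.pair ha ha)) (PTF.pair (PTF.pair (PTF.const 0) hN)
    (PTF.pair (PTF.const (true, true)) (PTF.pair (PTF.succ hg) (PTF.const 0))))

theorem ptf_GY {N a g : α → ℕ} (hN : PTF N) (ha : PTF a) (hg : PTF g) :
    PTF fun x => Fc.GY (N x) (a x) (g x) :=
  PTF.pair (PTF.pair ha (PTF.pair ha ha)) (PTF.pair (PTF.pair (PTF.const 0) hN)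
    (PTF.pair (PTF.const (true, true)) (PTF.pair (PTF.const 0) (PTF.succ hg))))

theorem ptf_T0 {M N g : α → ℕ} (hM : PTF M) (hN : PTF N) (hg : PTF g) :
    PTF fun x => Fc.T0 (M x) (N x) (g x) :=
  PTF.pair (PTF.pair (PTF.succ hM) (PTF.pair (PTF.succ hM) (PTF.succ hM)))
    (PTF.pair (PTF.pair (PTF.const 0) hN)
    (PTF.pair (PTF.const (true, true)) (PTF.pair (PTF.succ hg) (PTF.succ hg))))

theorem ptf_Gt {N a b g s : α → ℕ} (hN : PTF N) (ha : PTF a) (hb : PTF b) (hg : PTF g)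
    (hs : PTF s) : PTF fun x => Fc.G (N x) (a x) (b x) (g x) (s x, true) := by
  unfold Fc.G
  simp only [if_true]
  exact PTF.pair (PTF.pair ha (PTF.pair hb hb)) (PTF.pair (PTF.pair hs hs)
    (PTF.pair (PTF.pair (PTF.isZero hs) (PTF.eq hs hN)) (PTF.pair (PTF.succ hg) (PTF.succ hg))))

theorem ptf_Gf {N a b g s : α → ℕ} (hN : PTF N) (ha : PTF a) (hb : PTF b) (hg : PTF g)
    (hs : PTF s) : PTF fun x => Fc.G (N x) (a x) (b x) (g x) (s x, false) := by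
  unfold Fc.G
  simp only [Bool.false_eq_true, if_false]
  exact PTF.pair (PTF.pair ha (PTF.pair hb hb)) (PTF.pair (PTF.pair hs hs)
    (PTF.pair (PTF.pair (PTF.isZero hs) (PTF.eq hs hN)) (PTF.pair (PTF.const 0) (PTF.succ hg))))

theorem ptf_opFacets {M N : α → ℕ} {d : α → OpD} (hM : PTF M) (hN : PTF N) (hd : PTF d) :
    PTF fun a => (d a).facets (M a) (N a) := by
  have h0 : PTF fun _ : α => (0 : ℕ) := PTF.const 0
  have ha := ptf_pa hd
  have hb := ptf_pb hd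
  have hc := ptf_pc hd
  have he := ptf_pd hd
  have hx := ptf_x hd
  have hy := ptf_y hd
  have hz := ptf_z hd
  have hi := ptf_i hd
  have hv := ptf_v hd
  have hw := ptf_w hd
  have k0 := ptf_g0 hd
  have k1 := ptf_g1 hd
  have k2 := ptf_g2 hd
  unfold OpD.facets
  exact PTF.cons (ptf_Q hN he (ptf_nxt hM hd))
    (PTF.cons (ptf_GX hN hb k0) (PTF.cons (ptf_GY hN ha k0) (PTF.cons (ptf_T0 hM hN k0)
    (PTF.cons (ptf_GX hN hb k1) (PTF.cons (ptf_GY hN hc k1) (PTF.cons (ptf_T0 hM hN k1)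
    (PTF.cons (ptf_GX hN hc k2) (PTF.cons (ptf_GY hN he k2) (PTF.cons (ptf_T0 hM hN k2)
    (PTF.cons (ptf_Gt hN hb ha k0 h0) (PTF.cons (ptf_Gt hN hb ha k0 hy)
    (PTF.cons (ptf_Gf hN hb ha k0 hz) (PTF.cons (ptf_Gt hN hb ha k0 hi)
    (PTF.cons (ptf_Gt hN hb ha k0 hx) (PTF.cons (ptf_Gt hN hb ha k0 hN)
    (PTF.cons (ptf_Gt hN hb hc k1 h0) (PTF.cons (ptf_Gt hN hb hc k1 hy)
    (PTF.cons (ptf_Gt hN hb hc k1 hi) (PTF.cons (ptf_Gf hN hb hc k1 hv)
    (PTF.cons (ptf_Gt hN hb hc k1 hx) (PTF.cons (ptf_Gt hN hb hc k1 hN)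
    (PTF.cons (ptf_Gt hN hc he k2 h0) (PTF.cons (ptf_Gt hN hc he k2 hy)
    (PTF.cons (ptf_Gf hN hc he k2 hw) (PTF.cons (ptf_Gt hN hc he k2 hv)
    (PTF.cons (ptf_Gt hN hc he k2 hN) (PTF.const [])))))))))))))))))))))))))))

/-- G4-T3 -/
theorem ptf_fcodes : PTF fun I : NF => I.data.fcodes := by
  have h1 : PTF fun I : NF => (List.range (I.M - 1)).flatMap (fun a =>
      (List.range (I.N + 1)).map fun s => Fc.F I.N s (a + 1)) := by
    refine PTF.flatMap (f := fun (I : NF) (a : ℕ) =>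
      (List.range (I.N + 1)).map fun s => Fc.F I.N s (a + 1))
      (PTF.range (PTF.pred (ptf_M PTF.id))) ?_
    exact PTF.map (f := fun (p : NF × ℕ) (s : ℕ) => Fc.F p.1.N s (p.2 + 1))
      (PTF.range (PTF.succ ((ptf_N PTF.id).comp PTF.id.fst)))
      (ptf_F ((ptf_N PTF.id).comp PTF.id.fst.fst) PTF.id.snd (PTF.succ PTF.id.fst.snd))
  have h2 : PTF fun I : NF => I.opds.flatMap (OpD.facets I.M I.N) :=
    PTF.flatMap (f := fun (I : NF) (d : OpD) => OpD.facets I.M I.N d) (ptf_opds PTF.id)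
      (ptf_opFacets ((ptf_M PTF.id).comp PTF.id.fst) ((ptf_N PTF.id).comp PTF.id.fst) PTF.id.snd)
  exact PTF.cons (ptf_Q (ptf_N PTF.id) (PTF.const 0) (PTF.const 1)) (PTF.append h1 h2)

end Pool.Agent.Helper76.G4
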